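import Mathlib
import Pool.Agent.L7h95.CD.Stm

/-! Project CD, part LOW: the lower bound. -/

set_option autoImplicit false

namespace Pool.Agent.L7h69.CD

open Finset Function Pool.Agent.L7h95.CD

/-- no common neighbour except the middle vertex -/
lemma common {k : ℕ} {a : Fin k → ℕ} {s t : Fin k} {m : ℕ} (hs : s.1 ≤ m) (ht : t.1 = m + 2)
    {u : Fin k ⊕ (Σ i : Fin k, Fin (a i))} (h1 : (Cat k a).Adj (.inl s) u)
    (h2 : (Cat k a).Adj (.inl t) u) : ∃ r : Fin k, u = .inl r ∧ r.1 = m + 1 := by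
  rcases u with r | l
  · refine ⟨r, rfl, ?_⟩
    have h1' : s.1 + 1 = r.1 ∨ r.1 + 1 = s.1 := h1
    have h2' : t.1 + 1 = r.1 ∨ r.1 + 1 = t.1 := h2
    omega
  · exfalso
    have h1' : l.1 = s := h1
    have h2' : l.1 = t := h2
    rw [h1'] at h2'
    rw [h2'] at hs
    omega

theorem s_LOW (hNB : S_NB) (hC : S_CNT) : S_LOW := by
  classical
  intro n k a f hE i j hij hpar hi hj hh
  obtain ⟨hinj, hadj⟩ := id hE
  obtain ⟨X, hX⟩ : ∃ X : ℕ → Fin n → ZMod 2, ∀ m (h : m < k), X m = f (.inl ⟨m, h⟩) :=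
    ⟨fun m => if h : m < k then f (.inl ⟨m, h⟩) else 0, fun m h => dif_pos h⟩
  have two : ∀ y : Fin n → ZMod 2, y + y = 0 := by
    intro y
    funext c
    exact CharTwo.add_self_eq_zero _
  have hstep : ∀ m, m + 1 < k → ∃ c, X (m + 1) = X m + Pi.single c 1 := by
    intro m hm
    apply (hNB (Fin n) (X m) (X (m + 1))).1
    rw [hX m (by omega), hX (m + 1) hm]
    apply hadj
    exact Or.inl rfl
  obtain ⟨w, hw⟩ : ∃ w : ℕ → Fin n → ZMod 2, ∀ m, w m = X m + X (m + 1) + X (m + 2) :=
    ⟨_, fun _ => rfl⟩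
  have d1 : ∀ m, m + 2 < k → hammingDist (X m) (w m) = 1 := by
    intro m hm
    obtain ⟨c, hc⟩ := hstep (m + 1) (by omega)
    rw [hNB]
    refine ⟨c, ?_⟩
    have hc' : X (m + 2) = X (m + 1) + Pi.single c 1 := hc
    rw [hw, hc']
    have := two (X (m + 1))
    calc X m + X (m + 1) + (X (m + 1) + Pi.single c 1)
        = X m + (X (m + 1) + X (m + 1)) + Pi.single c 1 := by abel
      _ = X m + Pi.single c 1 := by rw [this, add_zero]
  have d2 : ∀ m, m + 2 < k → hammingDist (X (m + 2)) (w m) = 1 := by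
    intro m hm
    obtain ⟨c, hc⟩ := hstep m (by omega)
    rw [hNB]
    refine ⟨c, ?_⟩
    rw [hw, hc]
    have := two (X m)
    calc X m + (X m + Pi.single c 1) + X (m + 2)
        = (X m + X m) + (X (m + 2) + Pi.single c 1) := by abel
      _ = X (m + 2) + Pi.single c 1 := by rw [this, zero_add]
  have hne : ∀ m, m + 2 < k → w m ≠ X (m + 1) := by
    intro m hm h
    rw [hw] at h
    have h1 : X m + X (m + 2) = 0 := by
      have h2 : X m + X (m + 1) + X (m + 2) = X (m + 1) + (X m + X (m + 2)) := by abel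
      rw [h2] at h
      exact add_eq_left.1 h
    have h2 : X m = X (m + 2) := by
      have h3 := congrArg (· + X (m + 2)) h1
      simp only [add_assoc, two, add_zero, zero_add] at h3
      exact h3
    rw [hX m (by omega), hX (m + 2) hm] at h2
    have h3 := Sum.inl_injective (hinj h2)
    rw [Fin.mk.injEq] at h3
    omega
  -- a neighbour of an earlier vertex is not a neighbour of `m + 2`
  have key : ∀ (m : ℕ) (hm : m + 2 < k), (∃ (s : Fin k) (u : _), s.1 ≤ m ∧
      (Cat k a).Adj (.inl s) u ∧ f u = w m) →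
      ∀ u, (Cat k a).Adj (.inl ⟨m + 2, hm⟩) u → f u ≠ w m := by
    rintro m hm ⟨s, u, hs, hsu, hu⟩ u' hu' hfu
    have h1 : u' = u := hinj (by rw [hfu, hu])
    rw [h1] at hu'
    obtain ⟨r, hr, hr2⟩ := common hs rfl hsu hu'
    apply hne m hm
    rw [← hu, hr, hX (m + 1) (by omega)]
    congr 2
    exact Fin.ext hr2
  -- the claim
  have claim : ∀ t : ℕ, i.1 + 2 * t + 2 ≤ j.1 → ∃ (s : Fin k) (u : _), s.1 ≤ i.1 + 2 * t ∧
      (Cat k a).Adj (.inl s) u ∧ f u = w (i.1 + 2 * t) := by
    intro t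
    induction t with
    | zero =>
      intro ht
      by_contra hcon
      have h1 := hC n k a f hE i {w i.1} (fun w' hw' => by
        rw [mem_singleton] at hw'
        rw [hw']
        have hik : i.1 + 2 < k := by
          have := j.2
          omega
        refine ⟨?_, fun u hu hfu => hcon ⟨i, u, by omega, hu, by simpa using hfu⟩⟩
        have h2 := d1 i.1 hik
        rw [hX i.1 i.2] at h2
        exact h2)
      rw [card_singleton, hi] at h1
      omega
    | succ t ih =>
      intro ht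
      have hjk := j.2
      have hmk : i.1 + 2 * t + 2 < k := by omega
      have hc := ih (by omega)
      have hk := key _ hmk hc
      by_contra hcon
      have e : i.1 + 2 * (t + 1) = i.1 + 2 * t + 2 := by ring
      rw [e] at hcon ht
      have hww : w (i.1 + 2 * t + 2) ≠ w (i.1 + 2 * t) := by
        intro h
        obtain ⟨s, u, h1, h2, h3⟩ := hc
        exact hcon ⟨s, u, by omega, h2, by rw [h, h3]⟩
      have h1 := hC n k a f hE ⟨i.1 + 2 * t + 2, hmk⟩
        {w (i.1 + 2 * t + 2), w (i.1 + 2 * t)} (fun w' hw' => by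
        rw [mem_insert, mem_singleton] at hw'
        rcases hw' with hw' | hw'
        · rw [hw']
          refine ⟨?_, fun u hu hfu => hcon ⟨_, u, le_refl _, hu, hfu⟩⟩
          have h2 := d1 (i.1 + 2 * t + 2) (by omega)
          rw [hX _ hmk] at h2
          exact h2
        · rw [hw']
          refine ⟨?_, hk⟩
          have h2 := d2 (i.1 + 2 * t) hmk
          rw [hX _ hmk] at h2
          exact h2)
      rw [card_pair hww] at h1
      have h2 := hh ⟨i.1 + 2 * t + 2, hmk⟩ (by simp only; omega) (by simp only; omega)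
        (by simp only; omega)
      omega
  -- the end
  obtain ⟨t, ht⟩ : ∃ t, j.1 = i.1 + 2 * t + 2 := by
    refine ⟨(j.1 - i.1 - 2) / 2, ?_⟩
    omega
  have hmk : i.1 + 2 * t + 2 < k := by
    have := j.2
    omega
  have hk := key _ hmk (claim t (by omega))
  have h1 := hC n k a f hE ⟨i.1 + 2 * t + 2, hmk⟩ {w (i.1 + 2 * t)} (fun w' hw' => by
    rw [mem_singleton] at hw'
    rw [hw']
    refine ⟨?_, hk⟩
    have h2 := d2 (i.1 + 2 * t) hmk
    rw [hX _ hmk] at h2
    exact h2)
  have hje : (⟨i.1 + 2 * t + 2, hmk⟩ : Fin k) = j := Fin.ext ht.symm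
  rw [card_singleton, hje, hj] at h1
  omega

end Pool.Agent.L7h69.CD
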